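import Pool.Agent.H74.BFL.Unf

/-!
# Pointwise counts from entropy bounds

Row CNT of the ball frontier lemma, (5.4) of `/team-store/K_BFL_helper19.md`: if the rows of the
height are not full, in the sense of entropies, on all the events of a given size, then there is such
an event on which the number of the values of the digits of the height is not full, for all pairs
of rows and all samples.
-/

set_option autoImplicit false

namespace Pool.BFL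

open Finset Real
open Pool.Agent.H49.Ent Pool.Agent.H32.Dense Pool.STK Pool.KAL.NC1

variable {Ω : Type} [Fintype Ω] {p : Ω → ℝ}

/-- The coarse digits are a function of the fine digits. -/
theorem floor_coarse {P P' : ℕ} (h : P ≤ P') (x : ℝ) :
    ⌊(2 : ℝ) ^ P * x⌋ = ⌊(2 : ℝ) ^ P' * x⌋ / 2 ^ (P' - P) := by
  have h1 : (2 : ℝ) ^ P * x = (2 ^ P' * x) / ((2 ^ (P' - P) : ℕ) : ℝ) := by
    have : (2 : ℝ) ^ P' = 2 ^ P * 2 ^ (P' - P) := by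
      rw [← pow_add]
      congr 1
      omega
    rw [this]
    push_cast
    field_simp
  rw [h1, Int.floor_div_natCast]
  push_cast
  rfl

theorem isLaw_cond (hp : IsLaw p) {A : Ω → Prop} (hA : 0 < Pe p A) : IsLaw (cond p A True) := by
  refine ⟨fun ω => cond_nonneg hp.nonneg _ _ ω, sum_cond p _ ?_⟩
  rw [← Pe_eq_law]
  exact hA.ne'

open Classical in
theorem cond_cond {A : Ω → Prop} (hA : 0 < Pe p A) {B : Finset Ω}
    (hB : ∀ ω ∈ B, A ω) :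
    cond (cond p A True) (fun ω => ω ∈ B) True = cond p (fun ω => ω ∈ B) True := by
  have hP : ∀ ω ∈ B, cond p A True ω = p ω / Pe p A := by
    intro ω hω
    unfold Pool.Agent.H49.Ent.cond
    rw [if_pos (eq_true (hB ω hω)), ← Pe_eq_law]
  have h1 : law (cond p A True) (fun ω => ω ∈ B) True = law p (fun ω => ω ∈ B) True / Pe p A := by
    rw [← Pe_eq_law, ← Pe_eq_law, Pe_mem, Pe_mem, Finset.sum_div]
    exact Finset.sum_congr rfl hP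
  funext ω
  by_cases hω : ω ∈ B
  · have e1 : ∀ q : Ω → ℝ, cond q (fun ω => ω ∈ B) True ω = q ω / law q (fun ω => ω ∈ B) True := by
      intro q
      unfold Pool.Agent.H49.Ent.cond
      rw [if_pos (eq_true hω)]
    rw [e1, e1, hP ω hω, h1, div_div_div_cancel_right₀ hA.ne']
  · have e1 : ∀ q : Ω → ℝ, cond q (fun ω => ω ∈ B) True ω = 0 := by
      intro q
      unfold Pool.Agent.H49.Ent.cond
      rw [if_neg (by simpa using hω)]
    rw [e1, e1]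

/-- **Row CNT.** -/
theorem cnt_thm {Z : Type} (hp : IsLaw p) {A : Ω → Prop} (hA : 0 < Pe p A) (z : Ω → Z)
    (hgt : Ω → ℝ) {s k : ℕ} (hs : 0 < s) {c θ κ : ℝ} (hc : 0 ≤ c)
    (hκ : (k + 2) * log (k * s + 4 * k + 8) ≤ κ)
    (hent : ∀ B : Ω → Prop, (∀ ω, B ω → A ω) → exp (-κ) * Pe p A ≤ Pe p B →
      ∀ i j, i ≤ j → j ≤ k →
        CH (cond p B True) (fun ω => ⌊(2 : ℝ) ^ (s * j) * hgt ω⌋)
          (fun ω => (z ω, ⌊(2 : ℝ) ^ (s * i) * hgt ω⌋)) ≤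
          (1 - c) * (s * ((j : ℝ) - i)) * log 2 + θ) :
    ∃ B : Ω → Prop, (∀ ω, B ω → A ω) ∧ (∀ ω, B ω → 0 < p ω) ∧ exp (-κ) * Pe p A ≤ Pe p B ∧
      ∀ P₁ P₂ : ℕ, P₁ ≤ P₂ → P₂ ≤ s * k → ∀ ω, B ω →
        (Set.ncard {r : ℤ | ∃ ω', B ω' ∧ z ω' = z ω ∧
          ⌊(2 : ℝ) ^ P₁ * hgt ω'⌋ = ⌊(2 : ℝ) ^ P₁ * hgt ω⌋ ∧ r = ⌊(2 : ℝ) ^ P₂ * hgt ω'⌋} : ℝ) ≤
          exp ((1 - c) * ((P₂ : ℝ) - P₁) * log 2 + (θ + 2 * κ + 2 + 2 * s * log 2)) := by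
  classical
  have hk : (0 : ℝ) ≤ k := Nat.cast_nonneg k
  have hsr : (0 : ℝ) ≤ s := Nat.cast_nonneg s
  have hl2 : 0 < log 2 := Real.log_pos one_lt_two
  have hl2' : log 2 ≤ 1 := by
    have := Real.log_le_sub_one_of_pos (x := 2) two_pos
    linarith
  have hpA := isLaw_cond hp hA
  set f : ℕ → Ω → Z × ℤ := fun i ω => (z ω, ⌊(2 : ℝ) ^ (s * i) * hgt ω⌋) with hf
  have hnest : ∀ i j, i ≤ j → j ≤ k → ∀ ω ω', f j ω = f j ω' → f i ω = f i ω' := by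
    intro i j hij _ ω ω' h
    simp only [hf, Prod.mk.injEq] at h ⊢
    refine ⟨h.1, ?_⟩
    rw [floor_coarse (Nat.mul_le_mul_left s hij), floor_coarse (Nat.mul_le_mul_left s hij) (hgt ω'),
      h.2]
  have hcard : ∀ ω, (Set.ncard (f k '' {ω' | 0 < cond p A True ω' ∧ f 0 ω' = f 0 ω}) : ℝ) ≤
      exp (s * k * log 2) := by
    intro ω
    have h1 : f k '' {ω' | 0 < cond p A True ω' ∧ f 0 ω' = f 0 ω} ⊆
        (((Finset.Ico (2 ^ (s * k) * ⌊hgt ω⌋) (2 ^ (s * k) * ⌊hgt ω⌋ + 2 ^ (s * k))).image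
          (fun r => (z ω, r)) : Finset (Z × ℤ)) : Set (Z × ℤ)) := by
      rintro y ⟨ω', ⟨-, h2⟩, rfl⟩
      simp only [hf, mul_zero, pow_zero, one_mul, Prod.mk.injEq] at h2
      refine Finset.mem_coe.2 (Finset.mem_image.2 ⟨⌊(2 : ℝ) ^ (s * k) * hgt ω'⌋, ?_, by simp [hf, h2.1]⟩)
      have h3 := floor_coarse (Nat.zero_le (s * k)) (hgt ω')
      rw [pow_zero, one_mul, h2.2, Nat.sub_zero] at h3
      rw [Finset.mem_Ico, h3]
      have h4 : (0 : ℤ) < 2 ^ (s * k) := by positivity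
      have h5 := Int.emod_add_mul_ediv ⌊(2 : ℝ) ^ (s * k) * hgt ω'⌋ (2 ^ (s * k))
      have h6 := Int.emod_nonneg ⌊(2 : ℝ) ^ (s * k) * hgt ω'⌋ h4.ne'
      have h7 := Int.emod_lt_of_pos ⌊(2 : ℝ) ^ (s * k) * hgt ω'⌋ h4
      constructor <;> linarith
    have h2 := Set.ncard_le_ncard h1 (Finset.finite_toSet _)
    rw [Set.ncard_coe_finset] at h2
    have h2 := h2.trans Finset.card_image_le
    rw [Int.card_Ico, add_sub_cancel_left] at h2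
    have h3 : ((2 : ℤ) ^ (s * k)).toNat = 2 ^ (s * k) := by
      rw [show ((2 : ℤ) ^ (s * k)) = ((2 ^ (s * k) : ℕ) : ℤ) by push_cast; rfl, Int.toNat_natCast]
    rw [h3] at h2
    have h4 : exp (s * k * log 2) = (2 ^ (s * k) : ℕ) := by
      rw [mul_comm, Real.exp_mul, Real.exp_log two_pos, ← Nat.cast_mul, Real.rpow_natCast]
      push_cast
      rfl
    rw [h4]
    exact_mod_cast h2
  obtain ⟨B, hB1, hB2, hB3⟩ := unf_ncard hpA k f hnest (Λ := s * k * log 2) (by positivity) hcard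
  have hBA : ∀ ω ∈ B, A ω ∧ 0 < p ω := by
    intro ω hω
    obtain ⟨h1, h2⟩ := (cond_pos_iff hp.nonneg _ _ ω).1 (hB1 ω hω)
    exact ⟨by simpa using h2, h1⟩
  have hD0 : 0 < s * k * log 2 + 4 * k + 8 := by positivity
  have hκ' : (k + 2) * log (s * k * log 2 + 4 * k + 8) ≤ κ := by
    refine le_trans (mul_le_mul_of_nonneg_left (Real.log_le_log hD0 ?_) (by positivity)) hκ
    have : (s : ℝ) * k * log 2 ≤ s * k * 1 := mul_le_mul_of_nonneg_left hl2' (by positivity)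
    nlinarith
  have hPB : Pe p (fun ω => ω ∈ B) = Pe p A * ∑ ω ∈ B, cond p A True ω := by
    rw [Pe_mem, Finset.mul_sum]
    refine Finset.sum_congr rfl fun ω hω => ?_
    unfold Pool.Agent.H49.Ent.cond
    rw [if_pos (eq_true (hBA ω hω).1), ← Pe_eq_law, mul_div_cancel₀ _ hA.ne']
  have hPB' : exp (-κ) * Pe p A ≤ Pe p (fun ω => ω ∈ B) := by
    rw [hPB, mul_comm]
    refine mul_le_mul_of_nonneg_left (le_trans (Real.exp_le_exp.2 (by linarith)) hB2) hA.le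
  refine ⟨fun ω => ω ∈ B, fun ω hω => (hBA ω hω).1, fun ω hω => (hBA ω hω).2, hPB', ?_⟩
  intro P₁ P₂ h12 h2k ω hω
  -- the rows of the mesh
  obtain ⟨i, hi1, hi2⟩ : ∃ i, s * i ≤ P₁ ∧ P₁ < s * i + s :=
    ⟨P₁ / s, Nat.mul_div_le _ _, by have := Nat.lt_mul_div_succ P₁ hs; rwa [Nat.mul_add_one] at this⟩
  obtain ⟨j, hj1, hj2, hjk⟩ : ∃ j, P₂ ≤ s * j ∧ s * j < P₂ + s ∧ j ≤ k := by
    refine ⟨(P₂ + (s - 1)) / s, ?_, ?_, ?_⟩
    · have := Nat.lt_mul_div_succ (P₂ + (s - 1)) hs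
      rw [Nat.mul_add_one] at this
      omega
    · have := Nat.mul_div_le (P₂ + (s - 1)) s
      omega
    · rw [Nat.div_le_iff_le_mul_add_pred hs]
      have : s * k = k * s := mul_comm _ _
      omega
  have hij : i ≤ j := by
    by_contra h
    have h3 : s * (j + 1) ≤ s * i := Nat.mul_le_mul_left s (by omega)
    rw [Nat.mul_add_one] at h3
    omega
  have h3 := hB3 i j hij hjk ω hω
  rw [cond_cond hA fun ω hω => (hBA ω hω).1] at h3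
  have h4 := hent (fun ω => ω ∈ B) (fun ω hω => (hBA ω hω).1) hPB' i j hij hjk
  have hq0 : ∀ ω, 0 ≤ cond p (fun ω => ω ∈ B) True ω := fun ω => cond_nonneg hp.nonneg _ _ ω
  have h5 : CH (cond p (fun ω => ω ∈ B) True) (f j) (f i) =
      CH (cond p (fun ω => ω ∈ B) True) (fun ω => ⌊(2 : ℝ) ^ (s * j) * hgt ω⌋)
          (fun ω => (z ω, ⌊(2 : ℝ) ^ (s * i) * hgt ω⌋)) := by
    refine CH_congr hq0 ?_ ?_ (fun _ _ _ _ h => h) (fun _ _ _ _ h => h)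
    · intro ω ω' _ _ h
      simp only [hf, Prod.mk.injEq] at h
      exact h.1.2
    · intro ω ω' _ _ h
      simp only [hf, Prod.mk.injEq] at h ⊢
      exact ⟨h.2.1, h.1⟩
  have hij' : (s : ℝ) * i ≤ P₁ := by exact_mod_cast hi1
  have hj' : (P₂ : ℝ) ≤ s * j := by exact_mod_cast hj1
  have hi2' : (P₁ : ℝ) < s * i + s := by exact_mod_cast hi2
  have hj2' : (s : ℝ) * j < P₂ + s := by exact_mod_cast hj2
  have h6 : (Set.ncard (f j '' {ω' | ω' ∈ B ∧ f i ω' = f i ω}) : ℝ) ≤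
      exp ((1 - c) * ((P₂ : ℝ) - P₁) * log 2 + (θ + 2 * κ + 2 + 2 * s * log 2)) := by
    refine h3.trans (Real.exp_le_exp.2 ?_)
    rw [h5]
    have h7 : (1 - c) * (s * ((j : ℝ) - i)) ≤ (1 - c) * ((P₂ : ℝ) - P₁) + 2 * s := by
      have h8 : 0 ≤ s * ((j : ℝ) - i) - ((P₂ : ℝ) - P₁) := by
        rw [mul_sub]
        linarith
      have h9 : s * ((j : ℝ) - i) - ((P₂ : ℝ) - P₁) ≤ 2 * s := by
        rw [mul_sub]
        linarith
      nlinarith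
    have h8 := mul_le_mul_of_nonneg_right h7 hl2.le
    rw [add_mul] at h8
    linarith
  refine le_trans ?_ h6
  rw [Nat.cast_le]
  have h7 : {r : ℤ | ∃ ω', (ω' ∈ B) ∧ z ω' = z ω ∧
      ⌊(2 : ℝ) ^ P₁ * hgt ω'⌋ = ⌊(2 : ℝ) ^ P₁ * hgt ω⌋ ∧ r = ⌊(2 : ℝ) ^ P₂ * hgt ω'⌋} ⊆
      (fun y : Z × ℤ => y.2 / 2 ^ (s * j - P₂)) '' (f j '' {ω' | ω' ∈ B ∧ f i ω' = f i ω}) := by
    rintro r ⟨ω', h8, h9, h10, rfl⟩
    refine ⟨f j ω', ⟨ω', ⟨h8, ?_⟩, rfl⟩, ?_⟩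
    · simp only [hf, Prod.mk.injEq]
      refine ⟨h9, ?_⟩
      rw [floor_coarse hi1 (hgt ω'), floor_coarse hi1 (hgt ω), h10]
    · simp only [hf]
      rw [floor_coarse hj1 (hgt ω')]
  have h8 : (f j '' {ω' | ω' ∈ B ∧ f i ω' = f i ω}).Finite := Set.toFinite _
  exact (Set.ncard_le_ncard h7 (h8.image _)).trans (Set.ncard_image_le h8)

/-- **Row CNT**, in the form of the field `count` of `Pool.BFL.Core`. -/
theorem cnt_core {Z Z' : Type} (hp : IsLaw p) {A : Ω → Prop} (hA : 0 < Pe p A) (β : Ω → Z)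
    (yc : Ω → Z') (hgt : Ω → ℝ) {s k : ℕ} (hs : 0 < s) {c θ κ : ℝ} (hc : 0 ≤ c)
    (hκ : (k + 2) * log (k * s + 4 * k + 8) ≤ κ)
    (hent : ∀ B : Ω → Prop, (∀ ω, B ω → A ω) → exp (-κ) * Pe p A ≤ Pe p B →
      ∀ i j, i ≤ j → j ≤ k →
        CH (cond p B True) (fun ω => ⌊(2 : ℝ) ^ (s * j) * hgt ω⌋)
          (fun ω => ((β ω, yc ω), ⌊(2 : ℝ) ^ (s * i) * hgt ω⌋)) ≤
          (1 - c) * (s * ((j : ℝ) - i)) * log 2 + θ) :
    ∃ B : Ω → Prop, (∀ ω, B ω → A ω) ∧ exp (-κ) * Pe p A ≤ Pe p B ∧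
      ∀ P₁ P₂ : ℕ, P₁ ≤ P₂ → P₂ ≤ s * k → ∀ ω, 0 < cond p B True ω →
        (Set.ncard {r : ℤ | ∃ ω', 0 < cond p B True ω' ∧ β ω' = β ω ∧ yc ω' = yc ω ∧
          ⌊(2 : ℝ) ^ P₁ * hgt ω'⌋ = ⌊(2 : ℝ) ^ P₁ * hgt ω⌋ ∧ r = ⌊(2 : ℝ) ^ P₂ * hgt ω'⌋} : ℝ) ≤
          exp ((1 - c) * ((P₂ : ℝ) - P₁) * log 2 + (θ + 2 * κ + 2 + 2 * s * log 2)) := by
  obtain ⟨B, h1, -, h2, h3⟩ := cnt_thm hp hA (fun ω => (β ω, yc ω)) hgt hs hc hκ hent
  have hB : ∀ ω, 0 < cond p B True ω → B ω := fun ω h => by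
    simpa using ((cond_pos_iff hp.nonneg _ _ ω).1 h).2
  refine ⟨B, h1, h2, fun P₁ P₂ h12 hk ω hω => le_trans ?_ (h3 P₁ P₂ h12 hk ω (hB ω hω))⟩
  rw [Nat.cast_le]
  refine Set.ncard_le_ncard ?_ ?_
  · rintro r ⟨ω', h4, h5, h6, h7, h8⟩
    exact ⟨ω', hB ω' h4, Prod.ext h5 h6, h7, h8⟩
  · refine (Set.finite_range fun ω' => ⌊(2 : ℝ) ^ P₂ * hgt ω'⌋).subset ?_
    rintro r ⟨ω', -, -, -, rfl⟩
    exact ⟨ω', rfl⟩

end Pool.BFL
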