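import Pool.Agent.H19.BFL.Stmts4
import Pool.Agent.H34.BFL.Mono
import Pool.Agent.H74.BFL.Cnt
import Pool.Agent.H14.BFL.Rat
import Pool.Agent.H87.BFL.CMR

/-!
# Row UCN of the board kbfo: uniform counts on a large event
-/

set_option autoImplicit false

namespace Pool.BFL.Ucn

open Finset Real
open Pool.Agent.H49.Ent Pool.Agent.H32.Dense Pool.STK Pool.K2S Pool.BFL

/-- A positive lower bound of finitely many positive numbers. -/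
theorem fin_min {ι : Type} (S : Finset ι) (f : ι → ℝ) (h : ∀ t ∈ S, 0 < f t) :
    ∃ κ : ℝ, 0 < κ ∧ ∀ t ∈ S, κ ≤ f t := by
  classical
  induction S using Finset.induction_on with
  | empty => exact ⟨1, one_pos, fun t ht => absurd ht (Finset.notMem_empty t)⟩
  | insert a S ha ih =>
    obtain ⟨κ, h0, h1⟩ := ih fun t ht => h t (Finset.mem_insert_of_mem ht)
    refine ⟨min κ (f a), lt_min h0 (h a (Finset.mem_insert_self a S)), fun t ht => ?_⟩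
    rcases Finset.mem_insert.1 ht with rfl | ht'
    · exact min_le_right _ _
    · exact (min_le_left _ _).trans (h1 t ht')

/-- Iteration of restrictions of an event. -/
theorem iter_ev {Ω ι : Type} [Fintype Ω] {p : Ω → ℝ} {A : Ω → Prop} (Pr : ι → (Ω → Prop) → Prop)
    {a : ℝ} {N : ℕ} (hmono : ∀ t B B', Sub B' B → Pr t B → Pr t B') (S : Finset ι)
    (hstep : ∀ t ∈ S, ∀ B, Sub B A → ∀ i : ℕ, i < N → exp (-(i * a)) * Pe p A ≤ Pe p B →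
      ∃ B', Sub B' B ∧ exp (-a) * Pe p B ≤ Pe p B' ∧ Pr t B') (hS : S.card ≤ N) :
    ∃ B', Sub B' A ∧ exp (-(S.card * a)) * Pe p A ≤ Pe p B' ∧ ∀ t ∈ S, Pr t B' := by
  classical
  induction S using Finset.induction_on with
  | empty => exact ⟨A, fun ω h => h, by simp, fun t ht => absurd ht (Finset.notMem_empty t)⟩
  | insert x S hx ih =>
    rw [Finset.card_insert_of_notMem hx] at hS
    obtain ⟨B, h1, h2, h3⟩ := ih (fun t ht => hstep t (Finset.mem_insert_of_mem ht)) (by omega)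
    obtain ⟨B', h4, h5, h6⟩ := hstep x (Finset.mem_insert_self x S) B h1 S.card (by omega) h2
    refine ⟨B', fun ω h => h1 ω (h4 ω h), ?_, fun t ht => ?_⟩
    · rw [Finset.card_insert_of_notMem hx]
      have h7 := mul_le_mul_of_nonneg_left h2 (exp_pos (-a)).le
      refine le_trans (le_of_eq ?_) (h7.trans h5)
      rw [← mul_assoc, ← Real.exp_add]
      push_cast
      ring_nf
    · rcases Finset.mem_insert.1 ht with rfl | ht'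
      · exact h6
      · exact hmono t B B' h4 (h3 t ht')

/-- Logarithms are small. -/
theorem log_small {Q ε : ℝ} (hQ : 1 ≤ Q) (hε : 0 < ε) : ∃ z₀ : ℕ, ∀ z : ℕ, z₀ ≤ z → 1 ≤ z →
    Real.log (Q * z) ≤ ε * z := by
  have h1 := Real.isLittleO_log_id_atTop.def (c := ε / Q) (by positivity)
  obtain ⟨x₀, hx₀⟩ := Filter.eventually_atTop.1 h1
  refine ⟨⌈x₀⌉₊, fun z hz hz1 => ?_⟩
  have hzR : (1 : ℝ) ≤ z := by exact_mod_cast hz1
  have h2 : x₀ ≤ Q * z := by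
    have h3 : x₀ ≤ z := (Nat.le_ceil x₀).trans (by exact_mod_cast hz)
    nlinarith only [h3, hQ]
  have h3 := hx₀ (Q * z) h2
  rw [Real.norm_eq_abs, Real.norm_eq_abs, id, abs_of_nonneg (by positivity : 0 ≤ Q * z)] at h3
  have h4 : ε / Q * (Q * z) = ε * z := by field_simp
  rw [h4] at h3
  exact (le_abs_self _).trans h3

theorem Cnt_sub {n : ℕ} {D : Dat n} {p : D.Ω → ℝ} (hp : IsLaw p) {J k k₁ v P₁ P₂ : ℕ} {c κ : ℝ}
    {B B' : D.Ω → Prop} (hB : Sub B' B)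
    (h : D.Cnt J k k₁ v (Pool.Agent.H49.Ent.cond p B True) c κ P₁ P₂) :
    D.Cnt J k k₁ v (Pool.Agent.H49.Ent.cond p B' True) c κ P₁ P₂ := by
  have hc : ∀ ω, 0 < Pool.Agent.H49.Ent.cond p B' True ω →
      0 < Pool.Agent.H49.Ent.cond p B True ω := by
    intro ω hω
    obtain ⟨h1, h2⟩ := (cond_pos_iff hp.nonneg _ _ ω).1 hω
    exact (cond_pos_iff hp.nonneg _ _ ω).2 ⟨h1, eq_true (hB ω (of_eq_true h2))⟩
  intro ω hω
  refine le_trans ?_ (h ω (hc ω hω))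
  rw [Nat.cast_le]
  refine Set.ncard_le_ncard ?_ ?_
  · rintro x ⟨ω', h1, h2, h3, h4, h5⟩
    exact ⟨ω', hc ω' h1, h2, h3, h4, h5⟩
  · refine (Set.finite_range fun ω' => ⌊(2 : ℝ) ^ P₂ * D.rh J k ω'⌋).subset ?_
    rintro x ⟨ω', -, -, -, -, rfl⟩
    exact ⟨ω', rfl⟩

/-- The step for one tuple `(k, j, U, B₁)`. -/
theorem ucn_step {n K j U B₁ B M R : ℕ} {C₁ C₂ κ κ' κ₂ a : ℝ} {J r w₀ z k : ℕ} {c : ℝ} {D : Dat n}
    {p : D.Ω → ℝ} {A Bt : D.Ω → Prop} {i : ℕ} (hj : 1 ≤ j) (hU : C₁ + 1 ≤ U)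
    (hjU : (j + 2) * U ≤ B₁) (hB₁ : B₁ ≤ B) (hC₁ : 1 ≤ C₁)
    (hrat : ∀ (q : D.Ω → ℝ), D.Ok K J r w₀ z M κ' q → k + B₁ ≤ M → D.Hom z B₁ k j (C₁ + 1) →
      0 ≤ c → c ≤ 1 → ∀ P₁ P₂ : ℕ, D.g k + j * ((U - 1) * z) ≤ P₁ → P₁ ≤ P₂ →
      P₂ ≤ D.g k + (j + 1) * (U * z) → P₂ ≤ r → P₂ ≤ w₀ + (k + R) * z →
      D.Rate J q c ((C₁ + 1) * z) P₁ P₂ →
      CH q (fun ω => ⌊(2 : ℝ) ^ P₂ * D.rh J k ω⌋) (fun ω => (D.c (k + U) ω,
        D.cell J (w₀ + (k + B₁) * z) ω, ⌊(2 : ℝ) ^ P₁ * D.rh J k ω⌋)) ≤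
        (1 - c) * (((P₂ : ℝ) - P₁) * Real.log 2) + C₂ * z)
    (hκ : κ ≤ κ') (hz : 1 ≤ z) (hJR : J ≤ R * z) (hp : IsLaw p) (hA : 0 < Pe p A) (hc0 : 0 ≤ c) (hc1 : c ≤ 1)
    (hkM : k + B ≤ M) (hkr : D.g (k + B) ≤ r)
    (hyp : ∀ B' : D.Ω → Prop, Sub B' A → Real.exp (-(κ₂ * z)) * Pe p A ≤ Pe p B' →
      D.Ok K J r w₀ z M κ (Pool.Agent.H49.Ent.cond p B' True) ∧
      ∀ P₁ P₂ : ℕ, D.g k ≤ P₁ → P₁ ≤ P₂ → P₂ ≤ D.g (k + B) →
        D.Rate J (Pool.Agent.H49.Ent.cond p B' True) c (C₁ * z) P₁ P₂)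
    (hHom : D.Hom z B₁ k j (C₁ + 1)) (ha0 : 0 ≤ a)
    (ha : ((U + j : ℕ) + 2) * Real.log ((U + j : ℕ) * z + 4 * (U + j : ℕ) + 8) ≤ a)
    (hia : (i + 1) * a ≤ κ₂ * z) (haz : a ≤ z) (hBA : Sub Bt A)
    (hBp : exp (-(i * a)) * Pe p A ≤ Pe p Bt) :
    ∃ B' : D.Ω → Prop, Sub B' Bt ∧ exp (-a) * Pe p Bt ≤ Pe p B' ∧ ∀ P₁ P₂ : ℕ,
      D.g k + j * ((U - 1) * z) ≤ P₁ → P₁ ≤ P₂ → P₂ ≤ D.g k + (j + 1) * (U * z) →
        D.Cnt J k (k + U) (w₀ + (k + B₁) * z) (Pool.Agent.H49.Ent.cond p B' True) c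
          ((C₂ + 6) * z) P₁ P₂ := by
  classical
  have hzR : (1 : ℝ) ≤ z := by exact_mod_cast hz
  have hBt : 0 < Pe p Bt := lt_of_lt_of_le (mul_pos (exp_pos _) hA) hBp
  have hPe : ∀ B : D.Ω → Prop, Pool.KAL.NC1.Pe p B = Pe p B :=
    fun B => Pool.KAL.NC1.Pe_eq_law B
  have hU1 : 1 ≤ U := by
    have : (1 : ℝ) ≤ U := by linarith only [hU, hC₁]
    exact_mod_cast this
  obtain ⟨P₀, hP₀⟩ : ∃ P₀ : ℕ, P₀ = D.g k + j * ((U - 1) * z) := ⟨_, rfl⟩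
  have htop : P₀ + z * (U + j) = D.g k + (j + 1) * (U * z) := by
    obtain ⟨U', rfl⟩ : ∃ U', U = U' + 1 := ⟨U - 1, by omega⟩
    rw [hP₀, Nat.add_sub_cancel]
    ring
  -- everything is below the precision of the level `k + B₁`
  have hOkA := (hyp A (fun _ h => h) (by
    have h1 : exp (-(κ₂ * z)) ≤ 1 := by
      refine Real.exp_le_one_iff.2 ?_
      have : 0 ≤ (i + 1 : ℝ) * a := by positivity
      linarith only [hia, this]
    nlinarith only [hA, h1])).1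
  have hgB : D.g k + (j + 1) * (U * z) ≤ D.g (k + B₁) := by
    have h1 := (abs_le.1 (hHom B₁ le_rfl)).1
    have h2 : ((j + 2 : ℕ) : ℝ) * U ≤ B₁ := by exact_mod_cast hjU
    have hjR : (1 : ℝ) ≤ j := by exact_mod_cast hj
    have h3 : (C₁ + 1) * z ≤ U * z := mul_le_mul_of_nonneg_right hU (by linarith only [hzR])
    have h4 : (j : ℝ) * (((j + 2 : ℕ) : ℝ) * U * z) ≤ j * (B₁ * z) := by
      refine mul_le_mul_of_nonneg_left ?_ (by linarith only [hjR])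
      exact mul_le_mul_of_nonneg_right h2 (by linarith only [hzR])
    have h5 : (j : ℝ) * (((j + 2 : ℕ) : ℝ) * U * z) = (j * j + 2 * j) * (U * z) := by
      push_cast
      ring
    have h6 : 0 ≤ (U : ℝ) * z := by positivity
    have h7 : ((j : ℝ) + 1 + 1) * (U * z) ≤ (j * j + 2 * j) * (U * z) :=
      mul_le_mul_of_nonneg_right (by nlinarith only [hjR]) h6
    have h8 : (D.g k : ℝ) + (j + 1) * (U * z) ≤ D.g (k + B₁) := by nlinarith only [h1, h3, h4, h5, h7]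
    exact_mod_cast h8
  have hgB' : D.g (k + B₁) ≤ D.g (k + B) := hOkA.g_mono (by omega)
  have hcore := cnt_core (p := p) hp (A := Bt) (by rw [hPe]; exact hBt) (D.c (k + U))
    (D.cell J (w₀ + (k + B₁) * z)) (fun ω => (2 : ℝ) ^ P₀ * D.rh J k ω) (s := z) (k := U + j)
    (by omega) (c := c) (θ := C₂ * z) (κ := a) hc0 ha ?_
  · obtain ⟨B', h1, h2, h3⟩ := hcore
    refine ⟨B', h1, by rwa [hPe, hPe] at h2, ?_⟩
    intro P₁ P₂ hP₁ hP₁₂ hP₂ ω hω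
    obtain ⟨P₁', hP₁'⟩ : ∃ P₁', P₁ = P₀ + P₁' := ⟨P₁ - P₀, by omega⟩
    obtain ⟨P₂', hP₂'⟩ : ∃ P₂', P₂ = P₀ + P₂' := ⟨P₂ - P₀, by omega⟩
    have h4 := h3 P₁' P₂' (by omega) (by omega) ω hω
    have e1 : ∀ (P : ℕ) (ω : D.Ω), (2 : ℝ) ^ P * ((2 : ℝ) ^ P₀ * D.rh J k ω) =
        (2 : ℝ) ^ (P₀ + P) * D.rh J k ω := by
      intro P ω
      rw [pow_add]
      ring
    simp only [e1] at h4
    rw [← hP₁', ← hP₂'] at h4
    refine h4.trans (Real.exp_le_exp.2 ?_)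
    have e2 : (P₂ : ℝ) - P₁ = P₂' - P₁' := by
      rw [hP₁', hP₂']
      push_cast
      ring
    rw [e2]
    have hl : Real.log 2 ≤ 1 := by
      have := Real.log_two_lt_d9
      linarith only [this]
    have h5 : 2 * (z : ℝ) * Real.log 2 ≤ 2 * z := by nlinarith only [hl]
    nlinarith only [haz, hzR, h5]
  · intro B'' hB'' hB''p i' j' hij hj'
    rw [hPe, hPe] at hB''p
    have h1 : exp (-(κ₂ * z)) * Pe p A ≤ Pe p B'' := by
      have h2 := mul_le_mul_of_nonneg_left hBp (exp_pos (-a)).le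
      refine le_trans ?_ (h2.trans hB''p)
      rw [← mul_assoc, ← Real.exp_add]
      refine mul_le_mul_of_nonneg_right (Real.exp_le_exp.2 ?_) hA.le
      linarith only [hia]
    obtain ⟨hOk, hRate⟩ := hyp B'' (fun ω h => hBA ω (hB'' ω h)) h1
    have h2 : z * i' ≤ z * j' := Nat.mul_le_mul_left z hij
    have h3 : z * j' ≤ z * (U + j) := Nat.mul_le_mul_left z hj'
    have hrJ := hOk.r_le
    have hkR : (k + R) * z = k * z + R * z := Nat.add_mul k R z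
    have h4 := hrat _ (Pool.Agent.H34.BFL.Ok_mono hOk hκ) (by omega) hHom hc0 hc1 (P₀ + z * i')
      (P₀ + z * j') (by omega) (by omega) (by omega) (by omega) (by omega) ?_
    · have e1 : ∀ (P : ℕ) (ω : D.Ω), (2 : ℝ) ^ P * ((2 : ℝ) ^ P₀ * D.rh J k ω) =
          (2 : ℝ) ^ (P₀ + P) * D.rh J k ω := by
        intro P ω
        rw [pow_add]
        ring
      simp only [e1]
      have e2 : (((P₀ + z * j' : ℕ) : ℝ) - (P₀ + z * i' : ℕ)) = z * ((j' : ℝ) - i') := by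
        push_cast
        ring
      rw [e2] at h4
      have hq0 := hOk.isLaw.nonneg
      refine le_trans (le_of_eq ?_) (h4.trans (le_of_eq (by ring)))
      refine CH_congr hq0 ?_ ?_ ?_ ?_
      · exact fun _ _ _ _ h => (Prod.ext_iff.mp h).1
      · exact fun _ _ _ _ h => (Prod.ext_iff.mp h).1
      · intro ω ω' _ _ h
        simp only [Prod.mk.injEq] at h ⊢
        exact ⟨h.1.1, h.1.2, h.2⟩
      · intro ω ω' _ _ h
        simp only [Prod.mk.injEq] at h ⊢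
        exact ⟨⟨h.1, h.2.1⟩, h.2.2⟩
    · have h5 := hRate (P₀ + z * i') (P₀ + z * j') (by omega) (by omega) (by omega)
      unfold Dat.Rate at h5 ⊢
      refine h5.trans ?_
      nlinarith only [hzR]

end Pool.BFL.Ucn

namespace Pool.BFL

open Finset Real
open Pool.Agent.H49.Ent Pool.Agent.H32.Dense Pool.STK Pool.K2S Pool.BFL.Ucn
open Pool.Agent.H34.BFL (fam_max fam_maxN)

/-- **Row UCN** of the board kbfo, from row RAT. -/
theorem ucn_thm (hRAT : RATRStmt) : UCNStmt := by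
  classical
  intro n K C₁ hn hK hC₁
  have h1 : ∀ j : ℕ, ∃ (C₂ : ℝ) (U₁ : ℕ), (1 ≤ j ∧ j ≤ K) → (1 ≤ C₂ ∧
      ∀ B U R : ℕ, U₁ ≤ U → (j + 2) * U ≤ B → ∃ κ : ℝ, 0 < κ ∧ ∃ z₀ : ℕ,
      ∀ (J r w₀ z M k : ℕ) (c : ℝ) (D : Dat n) (q : D.Ω → ℝ), z₀ ≤ z →
        D.Ok K J r w₀ z M κ q → k + B ≤ M → D.Hom z B k j (C₁ + 1) → 0 ≤ c → c ≤ 1 →
        ∀ P₁ P₂ : ℕ, D.g k + j * ((U - 1) * z) ≤ P₁ → P₁ ≤ P₂ → P₂ ≤ D.g k + (j + 1) * (U * z) →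
        P₂ ≤ r → P₂ ≤ w₀ + (k + R) * z → D.Rate J q c ((C₁ + 1) * z) P₁ P₂ →
        CH q (fun ω => ⌊(2 : ℝ) ^ P₂ * D.rh J k ω⌋) (fun ω => (D.c (k + U) ω,
          D.cell J (w₀ + (k + B) * z) ω, ⌊(2 : ℝ) ^ P₁ * D.rh J k ω⌋)) ≤
          (1 - c) * (((P₂ : ℝ) - P₁) * Real.log 2) + C₂ * z) := by
    intro j
    by_cases hj : 1 ≤ j ∧ j ≤ K
    · obtain ⟨C₂, U₁, h2, h3⟩ := hRAT n K j (C₁ + 1) hn hj.1 hj.2 (by linarith only [hC₁])
      exact ⟨C₂, U₁, fun _ => ⟨h2, h3⟩⟩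
    · exact ⟨1, 1, fun h => absurd h hj⟩
  choose C2 U1 h1 using h1
  obtain ⟨C₂, hC₂1, hC₂⟩ := fam_max K C2
  obtain ⟨U₀', hU₀'⟩ := fam_maxN K U1
  refine ⟨C₂ + 6, max U₀' (⌈C₁⌉₊ + 1), by linarith only [hC₂1], by omega, ?_⟩
  intro B R M
  obtain ⟨S, hS⟩ : ∃ S : Finset (ℕ × ℕ × ℕ), S = range (K + 1) ×ˢ range (B + 1) ×ˢ range (B + 1) :=
    ⟨_, rfl⟩
  have h2 : ∀ t : ℕ × ℕ × ℕ, ∃ (κ : ℝ) (z₀ : ℕ), 0 < κ ∧ ((1 ≤ t.1 ∧ t.1 ≤ K) →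
      U1 t.1 ≤ t.2.1 → (t.1 + 2) * t.2.1 ≤ t.2.2 →
      ∀ (J r w₀ z M k : ℕ) (c : ℝ) (D : Dat n) (q : D.Ω → ℝ), z₀ ≤ z →
        D.Ok K J r w₀ z M κ q → k + t.2.2 ≤ M → D.Hom z t.2.2 k t.1 (C₁ + 1) → 0 ≤ c → c ≤ 1 →
        ∀ P₁ P₂ : ℕ, D.g k + t.1 * ((t.2.1 - 1) * z) ≤ P₁ → P₁ ≤ P₂ →
        P₂ ≤ D.g k + (t.1 + 1) * (t.2.1 * z) →
        P₂ ≤ r → P₂ ≤ w₀ + (k + R) * z → D.Rate J q c ((C₁ + 1) * z) P₁ P₂ →
        CH q (fun ω => ⌊(2 : ℝ) ^ P₂ * D.rh J k ω⌋) (fun ω => (D.c (k + t.2.1) ω,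
          D.cell J (w₀ + (k + t.2.2) * z) ω, ⌊(2 : ℝ) ^ P₁ * D.rh J k ω⌋)) ≤
          (1 - c) * (((P₂ : ℝ) - P₁) * Real.log 2) + C2 t.1 * z) := by
    rintro ⟨j, U, B₁⟩
    by_cases hj : (1 ≤ j ∧ j ≤ K) ∧ U1 j ≤ U ∧ (j + 2) * U ≤ B₁
    · obtain ⟨κ, hκ, z₀, h3⟩ := (h1 j hj.1).2 B₁ U R hj.2.1 hj.2.2
      exact ⟨κ, z₀, hκ, fun _ _ _ => h3⟩
    · exact ⟨1, 1, one_pos, fun a1 a2 a3 => absurd ⟨a1, a2, a3⟩ hj⟩
  choose κt zt h2 using h2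
  obtain ⟨κ, hκ, hκt⟩ := fin_min S κt (fun t _ => (h2 t).1)
  refine ⟨κ, hκ, ?_⟩
  intro κ₂ hκ₂
  -- the number of tuples
  obtain ⟨N, hN⟩ : ∃ N : ℕ, N = (M + 1) * S.card + 1 := ⟨_, rfl⟩
  have hNR : (1 : ℝ) ≤ N := by
    rw [hN]
    push_cast
    have : (0 : ℝ) ≤ (M + 1) * S.card := by positivity
    linarith only [this]
  obtain ⟨Q, hQ⟩ : ∃ Q : ℝ, Q = 5 * (B + K) + 8 := ⟨_, rfl⟩
  have hQ1 : 1 ≤ Q := by
    rw [hQ]
    have : (0 : ℝ) ≤ B := Nat.cast_nonneg B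
    have : (0 : ℝ) ≤ K := Nat.cast_nonneg K
    linarith only
  obtain ⟨ε, hε⟩ : ∃ ε : ℝ, ε = min κ₂ 1 / (N * (B + K + 2)) := ⟨_, rfl⟩
  have hBK : (0 : ℝ) < B + K + 2 := by positivity
  have hm0 : 0 < min κ₂ 1 := lt_min hκ₂ one_pos
  have hε0 : 0 < ε := by
    rw [hε]
    positivity
  obtain ⟨z₁, hz₁⟩ := log_small hQ1 hε0
  refine ⟨max (max z₁ 1) (S.sup zt), ?_⟩
  intro J r w₀ z c D p A Good hz hJR hp hA hc0 hc1 hGood hyp
  have hz1 : z₁ ≤ z := le_trans (by omega) hz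
  have hz2 : 1 ≤ z := le_trans (by omega) hz
  have hz3 : ∀ t ∈ S, zt t ≤ z := fun t ht => (Finset.le_sup ht).trans ((le_max_right _ _).trans hz)
  have hzR : (1 : ℝ) ≤ z := by exact_mod_cast hz2
  have hlog := hz₁ z hz1 hz2
  obtain ⟨a, ha⟩ : ∃ a : ℝ, a = (B + K + 2) * Real.log (Q * z) := ⟨_, rfl⟩
  have hQz : 1 ≤ Q * z := one_le_mul_of_one_le_of_one_le hQ1 hzR
  have ha0 : 0 ≤ a := by
    rw [ha]
    exact mul_nonneg hBK.le (Real.log_nonneg hQz)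
  have hNa : N * a ≤ min κ₂ 1 * z := by
    rw [ha]
    calc (N : ℝ) * ((B + K + 2) * Real.log (Q * z)) ≤ N * ((B + K + 2) * (ε * z)) := by
          refine mul_le_mul_of_nonneg_left ?_ (by linarith only [hNR])
          exact mul_le_mul_of_nonneg_left hlog hBK.le
      _ = min κ₂ 1 * z := by
          rw [hε]
          field_simp
  have hNa1 : N * a ≤ κ₂ * z := hNa.trans (mul_le_mul_of_nonneg_right (min_le_left _ _) (by linarith only [hzR]))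
  have haz : a ≤ z := by
    have h3 : a ≤ N * a := le_mul_of_one_le_left ha0 hNR
    have h4 : min κ₂ 1 * z ≤ 1 * z := mul_le_mul_of_nonneg_right (min_le_right _ _) (by linarith only [hzR])
    linarith only [hNa, h3, h4]
  -- the property of a tuple
  obtain ⟨Pr, hPr⟩ : ∃ Pr : ℕ × (ℕ × ℕ × ℕ) → (D.Ω → Prop) → Prop, Pr = fun t B' =>
      (1 ≤ t.2.1 ∧ t.2.1 ≤ K) → max U₀' (⌈C₁⌉₊ + 1) ≤ t.2.2.1 → (t.2.1 + 2) * t.2.2.1 ≤ t.2.2.2 →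
        t.2.2.2 ≤ B → D.Hom z t.2.2.2 t.1 t.2.1 (C₁ + 1) → ∀ P₁ P₂ : ℕ,
        D.g t.1 + t.2.1 * ((t.2.2.1 - 1) * z) ≤ P₁ → P₁ ≤ P₂ →
        P₂ ≤ D.g t.1 + (t.2.1 + 1) * (t.2.2.1 * z) →
        D.Cnt J t.1 (t.1 + t.2.2.1) (w₀ + (t.1 + t.2.2.2) * z)
          (Pool.Agent.H49.Ent.cond p B' True) c ((C₂ + 6) * z) P₁ P₂ := ⟨_, rfl⟩
  have hGM : Good ⊆ range (M + 1) := by
    intro k hk
    have := (hGood k hk).1
    exact Finset.mem_range.2 (by omega)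
  have hcard : (Good ×ˢ S).card ≤ N := by
    rw [Finset.card_product, hN]
    have h3 := Finset.card_le_card hGM
    rw [Finset.card_range] at h3
    have h4 := Nat.mul_le_mul_right S.card h3
    omega
  have hmono : ∀ t (B₀ B₀' : D.Ω → Prop), Sub B₀' B₀ → Pr t B₀ → Pr t B₀' := by
    intro t B₀ B₀' hs h
    rw [hPr] at h ⊢
    intro a1 a2 a3 a4 a5 P₁ P₂ a6 a7 a8
    exact Cnt_sub hp hs (h a1 a2 a3 a4 a5 P₁ P₂ a6 a7 a8)
  have hstep : ∀ t ∈ Good ×ˢ S, ∀ Bt : D.Ω → Prop, Sub Bt A → ∀ i : ℕ, i < N →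
      exp (-(i * a)) * Pe p A ≤ Pe p Bt →
      ∃ B', Sub B' Bt ∧ exp (-a) * Pe p Bt ≤ Pe p B' ∧ Pr t B' := by
    rintro ⟨k, j, U, B₁⟩ ht Bt hBt i hi hip
    obtain ⟨hk, htS⟩ := Finset.mem_product.1 ht
    by_cases hcond : (1 ≤ j ∧ j ≤ K) ∧ max U₀' (⌈C₁⌉₊ + 1) ≤ U ∧ (j + 2) * U ≤ B₁ ∧ B₁ ≤ B ∧
        D.Hom z B₁ k j (C₁ + 1)
    · obtain ⟨hj, hU, hjU, hB₁, hHom⟩ := hcond
      have hU1 : U1 j ≤ U := (hU₀' j hj).trans ((le_max_left _ _).trans hU)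
      have hUC : C₁ + 1 ≤ U := by
        have h3 : ⌈C₁⌉₊ + 1 ≤ U := (le_max_right _ _).trans hU
        have h4 : ((⌈C₁⌉₊ + 1 : ℕ) : ℝ) ≤ U := by exact_mod_cast h3
        push_cast at h4
        linarith only [h4, Nat.le_ceil C₁]
      have hUB : U ≤ B₁ := le_trans (Nat.le_mul_of_pos_left U (by omega)) hjU
      have hrt := (h2 (j, U, B₁)).2 hj hU1 hjU
      have hstep := ucn_step (n := n) (K := K) (j := j) (U := U) (B₁ := B₁) (B := B) (M := M)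
        (C₁ := C₁) (C₂ := C2 j) (κ := κ) (κ' := κt (j, U, B₁)) (κ₂ := κ₂) (a := a) (J := J)
        (r := r) (w₀ := w₀) (z := z) (k := k) (c := c) (D := D) (p := p) (A := A) (Bt := Bt)
        (i := i) hj.1 hUC hjU hB₁ hC₁
        (fun q => hrt J r w₀ z M k c D q (hz3 _ htS))
        (hκt _ htS) hz2 hJR hp hA hc0 hc1 (hGood k hk).1 (hGood k hk).2
        (fun B' a1 a2 => ⟨(hyp B' a1 a2).1, (hyp B' a1 a2).2 k hk⟩) hHom ha0 ?_ ?_ haz hBt hip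
      · obtain ⟨B'', b1, b2, b3⟩ := hstep
        refine ⟨B'', b1, b2, ?_⟩
        rw [hPr]
        intro _ _ _ _ _ P₁ P₂ a6 a7 a8
        refine Pool.Agent.H34.BFL.Cnt_mono (b3 P₁ P₂ a6 a7 a8) ?_
        have := hC₂ j hj
        nlinarith only [this]
      · have hUjB : U + j ≤ B + K := by omega
        have h3 : ((U + j : ℕ) : ℝ) ≤ B + K := by exact_mod_cast hUjB
        have h4 : (0 : ℝ) ≤ ((U + j : ℕ) : ℝ) := Nat.cast_nonneg _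
        rw [ha]
        refine mul_le_mul (by linarith only [h3]) (Real.log_le_log (by positivity) ?_)
          (Real.log_nonneg ?_) hBK.le
        · rw [hQ]
          nlinarith only [hzR, h3]
        · nlinarith only
      · have h3 : ((i : ℝ) + 1) ≤ N := by exact_mod_cast hi
        exact (mul_le_mul_of_nonneg_right h3 ha0).trans hNa1
    · refine ⟨Bt, fun _ h => h, ?_, ?_⟩
      · have h3 : exp (-a) ≤ 1 := Real.exp_le_one_iff.2 (by linarith only [ha0])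
        have h4 : 0 ≤ Pe p Bt := Pool.K2S.Pe_nonneg hp Bt
        nlinarith only [h3, h4]
      · rw [hPr]
        intro a1 a2 a3 a4 a5
        exact absurd ⟨a1, a2, a3, a4, a5⟩ hcond
  obtain ⟨B', hB1, hB2, hB3⟩ := iter_ev (p := p) (A := A) Pr (a := a) (N := N) hmono (Good ×ˢ S)
    hstep hcard
  refine ⟨B', hB1, ?_, ?_⟩
  · refine le_trans ?_ hB2
    refine mul_le_mul_of_nonneg_right (Real.exp_le_exp.2 ?_) hA.le
    have h3 : ((Good ×ˢ S).card : ℝ) * a ≤ N * a :=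
      mul_le_mul_of_nonneg_right (by exact_mod_cast hcard) ha0
    linarith only [hNa1, h3]
  · intro k hk j U B₁ hj hjK hU hjU hB₁ hHom P₁ P₂ hP₁ hP₁₂ hP₂
    have hUB : U ≤ B₁ := le_trans (Nat.le_mul_of_pos_left U (by omega)) hjU
    have ht : (k, (j, U, B₁)) ∈ Good ×ˢ S := by
      rw [hS]
      simp only [Finset.mem_product, Finset.mem_range]
      exact ⟨hk, by omega, by omega, by omega⟩
    have h3 := hB3 _ ht
    rw [hPr] at h3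
    exact h3 ⟨hj, hjK⟩ hU hjU hB₁ hHom P₁ P₂ hP₁ hP₁₂ hP₂

/-- Row UCN, without hypotheses. -/
theorem ucn_full : UCNStmt := ucn_thm (rat_thm cmr_thm)

end Pool.BFL
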