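import Pool.Agent.H37.S3.CI
import Pool.Agent.H13.KAL.NC1

/-!
# Uniformisation of a nested sequence of functions

For a nested sequence `f 0, …, f n` of functions on a finite probability space there is an event
whose probability is at least the inverse of a power of a logarithm, on which the number of values
of `f j` given `f i` is at most the exponential of the conditional entropy. The sizes are counted
relative to `f 0`, so that nothing is asked about the number of values of `f 0`.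
-/

set_option autoImplicit false

namespace Pool.BFL

open Finset Real
open Pool.Agent.H49.Ent Pool.Agent.H32.Dense Pool.STK Pool.KAL.NC1

variable {Ω S : Type} [Fintype Ω] {p : Ω → ℝ}

open Classical in
/-- Cleaning: remove the values which have lost most of their mass. -/
theorem clean (hp : IsLaw p) (n : ℕ) (f : ℕ → Ω → S) (B₀ : Finset Ω) {c : ℝ} (hc : 0 ≤ c) :
    ∃ B ⊆ B₀, ∑ ω ∈ B₀, p ω - (n + 1) * c ≤ ∑ ω ∈ B, p ω ∧
      ∀ i ≤ n, ∀ ω ∈ B, c * law p (f i) (f i ω) ≤ ∑ ω' ∈ B.filter (fun ω' => f i ω' = f i ω), p ω' := by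
  set Φ : Finset Ω → ℝ := fun B => ∑ ω ∈ B, p ω -
    c * ∑ i ∈ range (n + 1), ∑ s ∈ B.image (f i), law p (f i) s with hΦ
  obtain ⟨B, hB, hmax⟩ := Finset.exists_max_image B₀.powerset Φ ⟨∅, by simp⟩
  have hBs : B ⊆ B₀ := Finset.mem_powerset.1 hB
  refine ⟨B, hBs, ?_, ?_⟩
  · have h1 := hmax B₀ (by simp)
    have h2 : ∑ i ∈ range (n + 1), ∑ s ∈ B₀.image (f i), law p (f i) s ≤ (n + 1 : ℕ) := by
      calc ∑ i ∈ range (n + 1), ∑ s ∈ B₀.image (f i), law p (f i) s
          ≤ ∑ i ∈ range (n + 1), (1 : ℝ) := by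
            refine Finset.sum_le_sum fun i _ => ?_
            rw [← hp.sum_one, ← sum_law p (f i)]
            exact Finset.sum_le_sum_of_subset_of_nonneg
              (Finset.image_subset_image (Finset.subset_univ _))
              (fun s _ _ => law_nonneg hp.nonneg _ _)
        _ = (n + 1 : ℕ) := by simp
    have h3 : 0 ≤ ∑ i ∈ range (n + 1), ∑ s ∈ B.image (f i), law p (f i) s :=
      Finset.sum_nonneg fun i _ => Finset.sum_nonneg fun s _ => law_nonneg hp.nonneg _ _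
    have h4 := mul_le_mul_of_nonneg_left h2 hc
    have h5 := mul_nonneg hc h3
    simp only [hΦ] at h1
    push_cast at h4
    linarith
  · intro i hi ω hω
    by_contra hlt
    push Not at hlt
    set B' := B.filter (fun ω' => f i ω' ≠ f i ω) with hB'
    have h1 := hmax B' (Finset.mem_powerset.2 ((Finset.filter_subset _ _).trans hBs))
    have h2 : ∑ ω' ∈ B, p ω' = ∑ ω' ∈ B.filter (fun ω' => f i ω' = f i ω), p ω' + ∑ ω' ∈ B', p ω' :=
      (Finset.sum_filter_add_sum_filter_not B _ _).symm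
    have h3 : ∑ k ∈ range (n + 1), ∑ s ∈ B'.image (f k), law p (f k) s + law p (f i) (f i ω) ≤
        ∑ k ∈ range (n + 1), ∑ s ∈ B.image (f k), law p (f k) s := by
      rw [← Finset.sum_erase_add _ _ (Finset.mem_range.2 (Nat.lt_succ_of_le hi)),
        ← Finset.sum_erase_add (range (n + 1)) _ (Finset.mem_range.2 (Nat.lt_succ_of_le hi))]
      have h4 : ∑ k ∈ (range (n + 1)).erase i, ∑ s ∈ B'.image (f k), law p (f k) s ≤
          ∑ k ∈ (range (n + 1)).erase i, ∑ s ∈ B.image (f k), law p (f k) s :=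
        Finset.sum_le_sum fun k _ => Finset.sum_le_sum_of_subset_of_nonneg
          (Finset.image_subset_image (Finset.filter_subset _ _))
          (fun s _ _ => law_nonneg hp.nonneg _ _)
      have h5 : ∑ s ∈ B'.image (f i), law p (f i) s + law p (f i) (f i ω) ≤
          ∑ s ∈ B.image (f i), law p (f i) s := by
        rw [← Finset.sum_erase_add (B.image (f i)) _ (Finset.mem_image_of_mem (f i) hω)]
        refine add_le_add ?_ le_rfl
        refine Finset.sum_le_sum_of_subset_of_nonneg ?_ (fun s _ _ => law_nonneg hp.nonneg _ _)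
        intro s hs
        obtain ⟨ω', hω', rfl⟩ := Finset.mem_image.1 hs
        obtain ⟨h6, h7⟩ := Finset.mem_filter.1 hω'
        exact Finset.mem_erase.2 ⟨h7, Finset.mem_image_of_mem _ h6⟩
      linarith
    have h6 := mul_le_mul_of_nonneg_left h3 hc
    simp only [hΦ] at h1
    rw [mul_add] at h6
    linarith

open Classical in
/-- The mass of the samples whose value of `g` has a small probability relative to `f`. -/
theorem bad_mass (hp : IsLaw p) {f g : Ω → S} {Λ M : ℝ} (hcard : ∀ ω, (((univ.filter fun ω' => 0 < p ω' ∧ f ω' = f ω).image g).card : ℝ) ≤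
      exp Λ) :
    ∑ ω ∈ univ.filter (fun ω => 0 < p ω ∧ law p g (g ω) < exp (-M) * law p f (f ω)), p ω ≤
      exp (Λ - M) := by
  have h1 : ∑ ω ∈ univ.filter (fun ω => 0 < p ω ∧ law p g (g ω) < exp (-M) * law p f (f ω)), p ω ≤
      ∑ ω ∈ univ.filter (fun ω => 0 < p ω), exp (-M) * (law p f (f ω) * (p ω / law p g (g ω))) := by
    refine (Finset.sum_le_sum fun ω hω => ?_).trans
      (Finset.sum_le_sum_of_subset_of_nonneg ?_ fun ω hω _ => ?_)
    · obtain ⟨-, h0, h2⟩ := Finset.mem_filter.1 hω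
      have h3 := law_pos hp.nonneg g h0
      rw [← mul_assoc, mul_div_assoc', le_div_iff₀ h3, mul_comm]
      exact mul_le_mul_of_nonneg_right h2.le h0.le
    · intro ω hω
      obtain ⟨-, h0, -⟩ := Finset.mem_filter.1 hω
      exact Finset.mem_filter.2 ⟨Finset.mem_univ _, h0⟩
    · have := law_nonneg hp.nonneg f (f ω)
      have := law_nonneg hp.nonneg g (g ω)
      have := hp.nonneg ω
      positivity
  refine h1.trans ?_
  rw [← Finset.mul_sum, Real.exp_sub, Real.exp_neg, inv_mul_eq_div]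
  refine div_le_div_of_nonneg_right ?_ (exp_pos _).le
  rw [← Finset.sum_fiberwise_of_maps_to (g := f) (t := univ.image f)
    (fun ω _ => Finset.mem_image_of_mem f (Finset.mem_univ ω))]
  have h2 : ∀ y ∈ univ.image f, ∑ ω ∈ (univ.filter fun ω => 0 < p ω).filter (fun ω => f ω = y),
      law p f (f ω) * (p ω / law p g (g ω)) ≤ law p f y * exp Λ := by
    intro y hy
    obtain ⟨ω₀, -, rfl⟩ := Finset.mem_image.1 hy
    have e1 : ∑ ω ∈ (univ.filter fun ω => 0 < p ω).filter (fun ω => f ω = f ω₀),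
        law p f (f ω) * (p ω / law p g (g ω)) = law p f (f ω₀) *
        ∑ ω ∈ (univ.filter fun ω => 0 < p ω).filter (fun ω => f ω = f ω₀),
          (p ω / law p g (g ω)) := by
      rw [Finset.mul_sum]
      refine Finset.sum_congr rfl fun ω hω => ?_
      rw [(Finset.mem_filter.1 hω).2]
    rw [e1]
    refine mul_le_mul_of_nonneg_left ?_ (law_nonneg hp.nonneg _ _)
    refine le_trans ?_ (hcard ω₀)
    rw [Finset.filter_filter]
    rw [← Finset.sum_fiberwise_of_maps_to (g := g)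
      (t := (univ.filter fun ω' => 0 < p ω' ∧ f ω' = f ω₀).image g)
      (fun ω hω => Finset.mem_image_of_mem g hω)]
    rw [Finset.card_eq_sum_ones, Nat.cast_sum]
    refine Finset.sum_le_sum fun s hs => ?_
    obtain ⟨ω₁, hω₁, rfl⟩ := Finset.mem_image.1 hs
    obtain ⟨-, h0, -⟩ := Finset.mem_filter.1 hω₁
    have h3 := law_pos hp.nonneg g h0
    have e2 : ∑ ω ∈ (univ.filter fun ω' => 0 < p ω' ∧ f ω' = f ω₀).filter (fun ω => g ω = g ω₁),
        p ω / law p g (g ω) = (∑ ω ∈ (univ.filter fun ω' => 0 < p ω' ∧ f ω' = f ω₀).filter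
          (fun ω => g ω = g ω₁), p ω) / law p g (g ω₁) := by
      rw [Finset.sum_div]
      refine Finset.sum_congr rfl fun ω hω => ?_
      rw [(Finset.mem_filter.1 hω).2]
    rw [e2, div_le_iff₀ h3]
    push_cast
    rw [one_mul]
    unfold law
    rw [← Finset.sum_filter]
    refine Finset.sum_le_sum_of_subset_of_nonneg ?_ fun ω _ _ => hp.nonneg ω
    intro ω hω
    exact Finset.mem_filter.2 ⟨Finset.mem_univ _, (Finset.mem_filter.1 hω).2⟩
  refine (Finset.sum_le_sum h2).trans ?_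
  rw [← Finset.sum_mul, sum_law p f, hp.sum_one, one_mul]

open Classical in
theorem Pe_filter (p : Ω → ℝ) (A : Ω → Prop) : Pe p A = ∑ ω ∈ univ.filter A, p ω := by
  unfold Pe
  exact (Finset.sum_filter _ _).symm

open Classical in
/-- The number of values of `f j` given `f i`, and the conditional entropy, on a clean event on
which the relative probabilities are known up to a factor `e`. -/
theorem unf_core (hp : IsLaw p) {f₀ fi fj : Ω → S} (hij : ∀ ω ω', fj ω = fj ω' → fi ω = fi ω')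
    (h0i : ∀ ω ω', fi ω = fi ω' → f₀ ω = f₀ ω') {B : Finset Ω} {c hi hj : ℝ} (hc : 0 < c)
    (hB : ∀ ω ∈ B, 0 < p ω)
    (h1 : ∀ ω ∈ B, c * law p fi (fi ω) ≤ ∑ ω' ∈ B.filter (fun ω' => fi ω' = fi ω), p ω')
    (h2 : ∀ ω ∈ B, c * law p fj (fj ω) ≤ ∑ ω' ∈ B.filter (fun ω' => fj ω' = fj ω), p ω')
    (hi1 : ∀ ω ∈ B, exp (-(hi + 1)) * law p f₀ (f₀ ω) ≤ law p fi (fi ω))
    (hi2 : ∀ ω ∈ B, law p fi (fi ω) ≤ exp (-hi) * law p f₀ (f₀ ω))
    (hj1 : ∀ ω ∈ B, exp (-(hj + 1)) * law p f₀ (f₀ ω) ≤ law p fj (fj ω))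
    (hj2 : ∀ ω ∈ B, law p fj (fj ω) ≤ exp (-hj) * law p f₀ (f₀ ω)) {ω : Ω} (hω : ω ∈ B) :
    (((B.filter fun ω' => fi ω' = fi ω).image fj).card : ℝ) ≤
      exp (CH (cond p (fun ω => ω ∈ B) True) fj fi + 2 - 2 * log c) := by
  have hp0 := hp.nonneg
  have hPB : 0 < ∑ ω ∈ B, p ω := Finset.sum_pos hB ⟨ω, hω⟩
  set q : Ω → ℝ := cond p (fun ω => ω ∈ B) True with hq
  have hPeB : Pe p (fun ω => ω ∈ B) = ∑ ω ∈ B, p ω := by
    rw [Pe_filter]
    refine Finset.sum_congr ?_ fun _ _ => rfl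
    ext ω'
    simp
  have hlawB : law p (fun ω => ω ∈ B) True = ∑ ω ∈ B, p ω := by rw [← Pe_eq_law, hPeB]
  have hq0 : ∀ ω, 0 ≤ q ω := fun ω => cond_nonneg hp0 _ _ ω
  have hq1 : ∑ ω, q ω = 1 := sum_cond p _ (by rw [hlawB]; exact hPB.ne')
  have hqB : ∀ ω, 0 < q ω → ω ∈ B := by
    intro ω' h
    have := ((cond_pos_iff hp0 _ _ ω').1 h).2
    simpa using this
  have hlaw : ∀ (g : Ω → S) (s : S), law q g s =
      (∑ ω' ∈ B.filter (fun ω' => g ω' = s), p ω') / ∑ ω ∈ B, p ω := by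
    intro g s
    rw [hq, law_cond_Pe, hPeB]
    congr 1
    rw [Pe_filter]
    refine Finset.sum_congr ?_ fun _ _ => rfl
    ext ω'
    simp [and_comm]
  -- the count
  have hL0 : 0 < law p f₀ (f₀ ω) := law_pos hp0 _ (hB ω hω)
  have hcount : (((B.filter fun ω' => fi ω' = fi ω).image fj).card : ℝ) ≤
      exp (hj - hi + 1) / c := by
    have e1 : (((B.filter fun ω' => fi ω' = fi ω).image fj).card : ℝ) *
        (c * (exp (-(hj + 1)) * law p f₀ (f₀ ω))) ≤ exp (-hi) * law p f₀ (f₀ ω) := by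
      refine le_trans ?_ (hi2 ω hω)
      have e2 : ∑ ω' ∈ B.filter (fun ω' => fi ω' = fi ω), p ω' ≤ law p fi (fi ω) := by
        unfold law
        rw [← Finset.sum_filter]
        refine Finset.sum_le_sum_of_subset_of_nonneg ?_ fun ω _ _ => hp0 ω
        intro ω' hω'
        exact Finset.mem_filter.2 ⟨Finset.mem_univ _, (Finset.mem_filter.1 hω').2⟩
      refine le_trans ?_ e2
      rw [← Finset.sum_fiberwise_of_maps_to (g := fj)
        (t := (B.filter fun ω' => fi ω' = fi ω).image fj)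
        (fun ω hω => Finset.mem_image_of_mem fj hω), ← nsmul_eq_mul]
      refine Finset.card_nsmul_le_sum _ _ _ fun s hs => ?_
      obtain ⟨ω₁, hω₁, rfl⟩ := Finset.mem_image.1 hs
      obtain ⟨h3, h4⟩ := Finset.mem_filter.1 hω₁
      have e3 : (B.filter fun ω' => fi ω' = fi ω).filter (fun ω' => fj ω' = fj ω₁) =
          B.filter (fun ω' => fj ω' = fj ω₁) := by
        rw [Finset.filter_filter]
        refine Finset.filter_congr fun ω' _ => ?_
        constructor
        · exact fun h => h.2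
        · exact fun h => ⟨(hij _ _ h).trans h4, h⟩
      rw [e3]
      refine le_trans ?_ (h2 ω₁ h3)
      refine mul_le_mul_of_nonneg_left ?_ hc.le
      have := hj1 ω₁ h3
      rwa [h0i _ _ h4] at this
    have e2 : 0 < c * (exp (-(hj + 1)) * law p f₀ (f₀ ω)) := by positivity
    rw [← le_div_iff₀ e2] at e1
    refine e1.trans (le_of_eq ?_)
    rw [show hj - hi + 1 = -hi - (-(hj + 1)) by ring, Real.exp_sub]
    field_simp
  -- the conditional entropy
  have hCH : hj - hi - 1 + log c ≤ CH q fj fi := by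
    rw [CH_eq_neg_sum hq0]
    have e1 : hj - hi - 1 + log c = Ex q fun _ => hj - hi - 1 + log c := by
      unfold Ex
      rw [← Finset.sum_mul, hq1, one_mul]
    rw [e1]
    refine Ex_mono hq0 fun ω' h' => ?_
    have hb := hqB ω' h'
    have e2 : law q (fun ω => (fj ω, fi ω)) (fj ω', fi ω') = law q fj (fj ω') := by
      unfold law
      refine Finset.sum_congr rfl fun ω'' _ => ?_
      simp only [Prod.mk.injEq]
      by_cases h : fj ω'' = fj ω'
      · simp [h, hij _ _ h]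
      · simp [h]
    rw [e2, hlaw fj, hlaw fi]
    have h3 : 0 < law p f₀ (f₀ ω') := law_pos hp0 _ (hB ω' hb)
    have h4 : 0 < law p fi (fi ω') := law_pos hp0 _ (hB ω' hb)
    have h5 : 0 < law p fj (fj ω') := law_pos hp0 _ (hB ω' hb)
    have e3 : ∑ ω'' ∈ B.filter (fun ω'' => fj ω'' = fj ω'), p ω'' ≤ law p fj (fj ω') := by
      unfold law
      rw [← Finset.sum_filter]
      refine Finset.sum_le_sum_of_subset_of_nonneg ?_ fun ω _ _ => hp0 ω
      intro ω'' hω''
      exact Finset.mem_filter.2 ⟨Finset.mem_univ _, (Finset.mem_filter.1 hω'').2⟩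
    have h6 := h1 ω' hb
    have h7 := h2 ω' hb
    have h8 : 0 < ∑ ω'' ∈ B.filter (fun ω'' => fi ω'' = fi ω'), p ω'' :=
      lt_of_lt_of_le (by positivity) h6
    have h9 : 0 < ∑ ω'' ∈ B.filter (fun ω'' => fj ω'' = fj ω'), p ω'' :=
      lt_of_lt_of_le (by positivity) h7
    rw [div_div_div_cancel_right₀ hPB.ne', Real.log_div h9.ne' h8.ne']
    have h10 : log (∑ ω'' ∈ B.filter (fun ω'' => fj ω'' = fj ω'), p ω'') ≤
        -hj + log (law p f₀ (f₀ ω')) := by
      rw [← Real.log_exp (-hj), ← Real.log_mul (exp_pos _).ne' h3.ne']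
      exact Real.log_le_log h9 (e3.trans (hj2 ω' hb))
    have h11 : log c + (-(hi + 1) + log (law p f₀ (f₀ ω'))) ≤
        log (∑ ω'' ∈ B.filter (fun ω'' => fi ω'' = fi ω'), p ω'') := by
      rw [← Real.log_exp (-(hi + 1)), ← Real.log_mul (exp_pos _).ne' h3.ne',
        ← Real.log_mul hc.ne' (by positivity)]
      refine Real.log_le_log (by positivity) (le_trans ?_ h6)
      exact mul_le_mul_of_nonneg_left (hi1 ω' hb) hc.le
    linarith
  refine hcount.trans ?_
  rw [div_le_iff₀ hc]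
  calc exp (hj - hi + 1) ≤ exp (CH q fj fi + 2 - 2 * log c + log c) :=
        Real.exp_le_exp.2 (by linarith)
    _ = _ := by rw [Real.exp_add, Real.exp_log hc]

open Classical in
theorem bad_Pe (hp : IsLaw p) {f g : Ω → S} {Λ M : ℝ}
    (hcard : ∀ ω, (((univ.filter fun ω' => 0 < p ω' ∧ f ω' = f ω).image g).card : ℝ) ≤
      exp Λ) :
    Pe p (fun ω => 0 < p ω ∧ law p g (g ω) < exp (-M) * law p f (f ω)) ≤ exp (Λ - M) := by
  rw [Pe_filter]
  refine le_trans (le_of_eq ?_) (bad_mass hp hcard)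
  refine Finset.sum_congr ?_ fun _ _ => rfl
  ext ω
  simp only [Finset.mem_filter]

omit [Fintype Ω] in
open Classical in
theorem card_image_le_of {s : Finset Ω} {f g : Ω → S}
    (h : ∀ ω ω', g ω = g ω' → f ω = f ω') : (s.image f).card ≤ (s.image g).card := by
  set φ : S → S := fun y => if hy : ∃ ω ∈ s, g ω = y then f hy.choose else y with hφ
  have h1 : s.image f ⊆ (s.image g).image φ := by
    intro y hy
    obtain ⟨ω, hω, rfl⟩ := Finset.mem_image.1 hy
    refine Finset.mem_image.2 ⟨g ω, Finset.mem_image_of_mem g hω, ?_⟩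
    have h2 : ∃ ω' ∈ s, g ω' = g ω := ⟨ω, hω, rfl⟩
    rw [hφ]
    simp only
    rw [dif_pos h2]
    exact h _ _ h2.choose_spec.2
  exact (Finset.card_le_card h1).trans Finset.card_image_le

open Classical in
/-- **Uniformisation.** -/
theorem unf_thm (hp : IsLaw p) (n : ℕ) (f : ℕ → Ω → S)
    (hnest : ∀ i j, i ≤ j → j ≤ n → ∀ ω ω', f j ω = f j ω' → f i ω = f i ω') {Λ : ℝ}
    (hΛ : 0 ≤ Λ)
    (hcard : ∀ ω, (((univ.filter fun ω' => 0 < p ω' ∧ f 0 ω' = f 0 ω).image (f n)).card : ℝ) ≤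
      exp Λ) :
    ∃ B : Finset Ω, (∀ ω ∈ B, 0 < p ω) ∧
      exp (-((n + 2) * log (Λ + 4 * n + 8))) ≤ ∑ ω ∈ B, p ω ∧
      ∀ i j, i ≤ j → j ≤ n → ∀ ω ∈ B, (((B.filter fun ω' => f i ω' = f i ω).image (f j)).card : ℝ) ≤
        exp (CH (cond p (fun ω => ω ∈ B) True) (f j) (f i) + 2 +
          2 * ((n + 2) * log (Λ + 4 * n + 8))) := by
  have hp0 := hp.nonneg
  have hn : (0 : ℝ) ≤ n := Nat.cast_nonneg n
  set M : ℕ := ⌈Λ + log (2 * (n + 1))⌉₊ with hM
  have hlog0 : 0 ≤ log (2 * ((n : ℝ) + 1)) := Real.log_nonneg (by linarith)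
  have hM1 : Λ + log (2 * (n + 1)) ≤ M := Nat.le_ceil _
  have hM2 : (M : ℝ) + 1 ≤ Λ + 4 * n + 8 := by
    have h1 : (M : ℝ) < Λ + log (2 * (n + 1)) + 1 := Nat.ceil_lt_add_one (by positivity)
    have h2 := Real.log_le_sub_one_of_pos (x := 2 * ((n : ℝ) + 1)) (by positivity)
    linarith
  set D : ℝ := Λ + 4 * n + 8 with hD
  -- relative probabilities
  set a : ℕ → Ω → ℝ := fun i ω => log (law p (f 0) (f 0 ω)) - log (law p (f i) (f i ω)) with ha
  have ha0 : ∀ i ≤ n, ∀ ω, 0 < p ω → 0 ≤ a i ω := by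
    intro i hi ω h0
    rw [ha]
    refine sub_nonneg.2 (Real.log_le_log (law_pos hp0 _ h0) ?_)
    unfold law
    refine Finset.sum_le_sum fun ω' _ => ?_
    by_cases h : f i ω' = f i ω
    · rw [if_pos h, if_pos (hnest 0 i (Nat.zero_le _) hi _ _ h)]
    · rw [if_neg h]
      split_ifs
      exacts [hp0 _, le_rfl]
  obtain ⟨Gd, hGd⟩ : ∃ Gd : Ω → Prop, ∀ ω, Gd ω ↔ (0 < p ω ∧ ∀ i ∈ range (n + 1),
    exp (-(M : ℝ)) * law p (f 0) (f 0 ω) ≤ law p (f i) (f i ω)) := ⟨_, fun _ => Iff.rfl⟩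
  set G : Finset Ω := univ.filter Gd with hG
  have hGm : (1 : ℝ) / 2 ≤ ∑ ω ∈ G, p ω := by
    have h1 : Pe p (fun ω => ¬ Gd ω) ≤
        ∑ i ∈ range (n + 1), Pe p (fun ω => 0 < p ω ∧
          law p (f i) (f i ω) < exp (-(M : ℝ)) * law p (f 0) (f 0 ω)) := by
      refine Pe_le_sum hp0 _ _ _ fun ω h0 h => ?_
      rw [hGd] at h
      push Not at h
      obtain ⟨i, hi, h2⟩ := h h0
      exact ⟨i, hi, h0, h2⟩
    have h2 : ∑ i ∈ range (n + 1), Pe p (fun ω => 0 < p ω ∧
          law p (f i) (f i ω) < exp (-(M : ℝ)) * law p (f 0) (f 0 ω)) ≤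
        ∑ i ∈ range (n + 1), (1 : ℝ) / (2 * (n + 1)) := by
      refine Finset.sum_le_sum fun i hi => ?_
      refine (bad_Pe hp (f := f 0) (g := f i) (Λ := Λ) (M := M) fun ω => ?_).trans ?_
      · refine le_trans ?_ (hcard ω)
        exact_mod_cast card_image_le_of
          (hnest i n (Nat.lt_succ_iff.1 (Finset.mem_range.1 hi)) le_rfl)
      · calc exp (Λ - M) ≤ exp (-log (2 * (n + 1))) := Real.exp_le_exp.2 (by linarith)
          _ = 1 / (2 * (n + 1)) := by rw [Real.exp_neg, Real.exp_log (by positivity), one_div]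
    have h3 : ∑ i ∈ range (n + 1), (1 : ℝ) / (2 * (n + 1)) = 1 / 2 := by
      rw [Finset.sum_const, Finset.card_range, nsmul_eq_mul]
      push_cast
      field_simp
    have h4 := Pe_add_not hp Gd
    rw [Pe_filter p Gd] at h4
    linarith
  -- classes
  set κ : Ω → Fin (n + 1) → ℕ := fun ω i => ⌊a i ω⌋₊ with hκ
  set t : Finset (Fin (n + 1) → ℕ) := Fintype.piFinset fun _ => range (M + 1) with ht
  have htc : (t.card : ℝ) = ((M : ℝ) + 1) ^ (n + 1) := by
    rw [ht, Fintype.card_piFinset]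
    simp
  have hMp : (0 : ℝ) < (M : ℝ) + 1 := by positivity
  obtain ⟨y, -, hy⟩ := Finset.exists_le_sum_fiber_of_maps_to_of_nsmul_le_sum (s := G) (t := t)
    (f := κ) (w := p) (b := 1 / 2 / ((M : ℝ) + 1) ^ (n + 1)) (fun ω hω => by
      obtain ⟨h0, h1⟩ := (hGd ω).1 (Finset.mem_filter.1 hω).2
      rw [ht, Fintype.mem_piFinset]
      intro i
      rw [Finset.mem_range, Nat.lt_succ_iff]
      refine Nat.floor_le_of_le ?_
      have h2 := h1 i (Finset.mem_range.2 i.2)
      have h3 := law_pos hp0 (f 0) h0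
      have h4 := Real.log_le_log (by positivity) h2
      rw [Real.log_mul (exp_pos _).ne' h3.ne', Real.log_exp] at h4
      simp only [ha]
      linarith) ⟨fun _ => 0, by
        rw [ht, Fintype.mem_piFinset]
        intro i
        exact Finset.mem_range.2 (Nat.succ_pos _)⟩ (by
      rw [nsmul_eq_mul, htc]
      refine le_trans (le_of_eq ?_) hGm
      field_simp)
  set B₀ : Finset Ω := G.filter fun ω => κ ω = y with hB₀
  set c : ℝ := 1 / (4 * (n + 1) * ((M : ℝ) + 1) ^ (n + 1)) with hc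
  have hc0 : 0 < c := by positivity
  have hcD : exp (-((n + 2) * log D)) ≤ c := by
    have hDp : 0 < D := by positivity
    rw [Real.exp_neg, hc, ← one_div]
    refine one_div_le_one_div_of_le (by positivity) ?_
    rw [mul_comm ((n : ℝ) + 2), Real.exp_mul, Real.exp_log hDp]
    have e1 : D ^ ((n : ℝ) + 2) = D * D ^ (n + 1) := by
      rw [show ((n : ℝ) + 2) = ((n + 2 : ℕ) : ℝ) by push_cast; ring, Real.rpow_natCast]
      ring
    rw [e1]
    refine mul_le_mul (by linarith) (pow_le_pow_left₀ hMp.le hM2 _) (by positivity) hDp.le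
  obtain ⟨B, hBB, hBm, hBc⟩ := clean hp n f B₀ hc0.le
  have hBm' : c ≤ ∑ ω ∈ B, p ω := by
    refine le_trans ?_ hBm
    have e1 : 1 / 2 / ((M : ℝ) + 1) ^ (n + 1) = 2 * ((n + 1) * c) := by
      rw [hc]
      field_simp
      ring
    have e2 : c ≤ (n + 1) * c := by nlinarith
    rw [e1] at hy
    linarith
  have hmem : ∀ ω ∈ B, 0 < p ω ∧ κ ω = y := by
    intro ω hω
    obtain ⟨h1, h2⟩ := Finset.mem_filter.1 (hBB hω)
    exact ⟨((hGd ω).1 (Finset.mem_filter.1 h1).2).1, h2⟩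
  refine ⟨B, fun ω hω => (hmem ω hω).1, hcD.trans hBm', fun i j hij hj ω hω => ?_⟩
  have hup : ∀ k (hk : k ≤ n), ∀ ω ∈ B, law p (f k) (f k ω) ≤
      exp (-(y ⟨k, Nat.lt_succ_of_le hk⟩ : ℝ)) * law p (f 0) (f 0 ω) := by
    intro k hk ω hω
    obtain ⟨h0, h1⟩ := hmem ω hω
    have h2 : (y ⟨k, Nat.lt_succ_of_le hk⟩ : ℝ) ≤ a k ω := by
      rw [← h1]
      exact Nat.floor_le (ha0 k hk ω h0)
    have h3 := law_pos hp0 (f 0) h0
    have h4 := law_pos hp0 (f k) h0
    rw [← Real.log_le_log_iff h4 (by positivity), Real.log_mul (exp_pos _).ne' h3.ne',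
      Real.log_exp]
    simp only [ha] at h2
    linarith
  have hlo : ∀ k (hk : k ≤ n), ∀ ω ∈ B, exp (-((y ⟨k, Nat.lt_succ_of_le hk⟩ : ℝ) + 1)) *
      law p (f 0) (f 0 ω) ≤ law p (f k) (f k ω) := by
    intro k hk ω hω
    obtain ⟨h0, h1⟩ := hmem ω hω
    have h2 : a k ω < (y ⟨k, Nat.lt_succ_of_le hk⟩ : ℝ) + 1 := by
      rw [← h1]
      exact Nat.lt_floor_add_one _
    have h3 := law_pos hp0 (f 0) h0
    have h4 := law_pos hp0 (f k) h0
    rw [← Real.log_le_log_iff (by positivity) h4, Real.log_mul (exp_pos _).ne' h3.ne',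
      Real.log_exp]
    simp only [ha] at h2
    linarith
  refine (unf_core hp (f₀ := f 0) (fi := f i) (fj := f j) (hnest i j hij hj)
    (hnest 0 i (Nat.zero_le _) (hij.trans hj)) hc0 (fun ω hω => (hmem ω hω).1)
    (hBc i (hij.trans hj)) (hBc j hj) (hlo i (hij.trans hj)) (hup i (hij.trans hj))
    (hlo j hj) (hup j hj) hω).trans ?_
  refine Real.exp_le_exp.2 ?_
  have h5 : -((n + 2) * log D) ≤ log c := by
    rw [← Real.log_exp (-((n + 2) * log D))]
    exact Real.log_le_log (exp_pos _) hcD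
  linarith

open Classical in
theorem Pe_mem (p : Ω → ℝ) (B : Finset Ω) : Pe p (fun ω => ω ∈ B) = ∑ ω ∈ B, p ω := by
  rw [Pe_filter]
  refine Finset.sum_congr ?_ fun _ _ => rfl
  ext ω'
  simp

/-- **Uniformisation**, with `Set.ncard`. -/
theorem unf_ncard (hp : IsLaw p) (n : ℕ) (f : ℕ → Ω → S)
    (hnest : ∀ i j, i ≤ j → j ≤ n → ∀ ω ω', f j ω = f j ω' → f i ω = f i ω') {Λ : ℝ}
    (hΛ : 0 ≤ Λ)
    (hcard : ∀ ω, (Set.ncard (f n '' {ω' | 0 < p ω' ∧ f 0 ω' = f 0 ω}) : ℝ) ≤ exp Λ) :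
    ∃ B : Finset Ω, (∀ ω ∈ B, 0 < p ω) ∧
      exp (-((n + 2) * log (Λ + 4 * n + 8))) ≤ ∑ ω ∈ B, p ω ∧
      ∀ i j, i ≤ j → j ≤ n → ∀ ω ∈ B,
        (Set.ncard (f j '' {ω' | ω' ∈ B ∧ f i ω' = f i ω}) : ℝ) ≤
        exp (CH (cond p (fun ω => ω ∈ B) True) (f j) (f i) + 2 +
          2 * ((n + 2) * log (Λ + 4 * n + 8))) := by
  classical
  obtain ⟨B, h1, h2, h3⟩ := unf_thm hp n f hnest hΛ fun ω => by
    refine le_trans (le_of_eq ?_) (hcard ω)
    rw [← Set.ncard_coe_finset]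
    congr 2
    ext y
    simp
  refine ⟨B, h1, h2, fun i j hij hj ω hω => le_trans (le_of_eq ?_) (h3 i j hij hj ω hω)⟩
  rw [← Set.ncard_coe_finset]
  congr 2
  ext y
  simp

end Pool.BFL
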