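import Pool.Agent.H37.S3.CI

/-!
# A slowly varying variable along a nested chain

Row VCH of the ball frontier lemma, (4.2) of `/team-store/K_BFL_helper19.md`: if the variables
`V i` change slowly given the labels `c i`, then the total information of the next label about
`V i` is bounded.
-/

set_option autoImplicit false

namespace Pool.BFL

open Finset Real
open Pool.Agent.H49.Ent Pool.Agent.H32.Dense Pool.STK Pool.KS3

variable {Ω C 𝒱 : Type} [Fintype Ω]

/-- **Row VCH.** -/
theorem vch_thm {p : Ω → ℝ} (hp : ∀ ω, 0 ≤ p ω) (c : ℕ → Ω → C) (V : ℕ → Ω → 𝒱) (e : ℕ → ℝ)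
    (n : ℕ) (h : ∀ i < n, CH p (V (i + 1)) (fun ω => (V i ω, c (i + 1) ω)) ≤ e i) :
    ∑ i ∈ range n, (CH p (V i) (c i) - CH p (V i) (c (i + 1))) + CH p (V n) (c n) ≤
      CH p (V 0) (c 0) + ∑ i ∈ range n, e i := by
  induction n with
  | zero => simp
  | succ n ih =>
    have h1 := ih fun i hi => h i (by omega)
    have h2 := h n (by omega)
    have h3 : CH p (V (n + 1)) (c (n + 1)) ≤ CH p (V n) (c (n + 1)) +
        CH p (V (n + 1)) (fun ω => (V n ω, c (n + 1) ω)) := CH_le_add hp _ _ _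
    rw [Finset.sum_range_succ, Finset.sum_range_succ]
    linarith

open Classical in
/-- **Row VCH, Markov form.** All but few of the steps have small information. -/
theorem vch_count {p : Ω → ℝ} (hp : ∀ ω, 0 ≤ p ω) (c : ℕ → Ω → C) (V : ℕ → Ω → 𝒱) (e : ℕ → ℝ)
    (n : ℕ) (h : ∀ i < n, CH p (V (i + 1)) (fun ω => (V i ω, c (i + 1) ω)) ≤ e i)
    (hc : ∀ i < n, Det p (c (i + 1)) (c i)) {d : ℝ} :
    (((range n).filter fun i => d < CH p (V i) (c i) - CH p (V i) (c (i + 1))).card : ℝ) * d ≤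
      CH p (V 0) (c 0) + ∑ i ∈ range n, e i := by
  have h1 := vch_thm hp c V e n h
  have h2 := CH_nonneg hp (V n) (c n)
  set B := (range n).filter fun i => d < CH p (V i) (c i) - CH p (V i) (c (i + 1)) with hB
  have h3 : (B.card : ℝ) * d ≤ ∑ i ∈ B, (CH p (V i) (c i) - CH p (V i) (c (i + 1))) := by
    rw [← nsmul_eq_mul]
    exact Finset.card_nsmul_le_sum _ _ _ fun i hi => (Finset.mem_filter.1 hi).2.le
  have h4 : ∑ i ∈ B, (CH p (V i) (c i) - CH p (V i) (c (i + 1))) ≤
      ∑ i ∈ range n, (CH p (V i) (c i) - CH p (V i) (c (i + 1))) := by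
    refine Finset.sum_le_sum_of_subset_of_nonneg (Finset.filter_subset _ _) fun i hi _ => ?_
    have := CH_mono_cond hp (X := V i) (hc i (Finset.mem_range.1 hi))
    linarith
  linarith

end Pool.BFL
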